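import Pool.Agent.W846.ERWGood
import Pool.Agent.H497R3.CondExp

set_option autoImplicit false
open MeasureTheory ProbabilityTheory Filter Topology
open scoped ENNReal

/-!
# MP_54d550_pr: the first walker can be transient when `δ = 1`

A stationary ergodic law of cookie environments, weakly elliptic, with at most `5` cookies per site
and expected drift per site `δ = 1`, for which the walk `X^{(1)}` satisfies `|X_n| → ∞` almost
surely. So the equivalence `X^{(k)}` is transient if and only if `k < δ` fails for `k = 1`.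
-/

namespace Pool.Agent.Results.MP_54d550_pr.TransientAtOne

/-- A law on cookie environments: a probability measure on `ℤ → ℕ → ℝ` which is almost surely
`[0,1]`-valued.  `ω x n` is the `(n+1)`-st cookie at site `x`. -/
def IsCookieLaw (P : Measure (ℤ → ℕ → ℝ)) : Prop :=
  IsProbabilityMeasure P ∧ ∀ᵐ ω ∂P, ∀ (x : ℤ) (n : ℕ), ω x n ∈ Set.Icc (0:ℝ) 1

/-- (SE): the stacks are stationary and ergodic under the shift of `ℤ`. -/
def IsSE (P : Measure (ℤ → ℕ → ℝ)) : Prop :=
  Ergodic (fun (ω : ℤ → ℕ → ℝ) (x : ℤ) => ω (x + 1)) P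

/-- (WEL): at every site all cookies are positive with positive probability, and all cookies are
smaller than one with positive probability. -/
def IsWEL (P : Measure (ℤ → ℕ → ℝ)) : Prop :=
  ∀ x : ℤ, 0 < P {ω | ∀ n, 0 < ω x n} ∧ 0 < P {ω | ∀ n, ω x n < 1}

/-- (BD): there is a deterministic `M` such that almost surely, at every site, all cookies except
the first `M` ones are equal to `1/2`. -/
def IsBD (P : Measure (ℤ → ℕ → ℝ)) : Prop :=
  ∃ M : ℕ, ∀ᵐ ω ∂P, ∀ (x : ℤ) (n : ℕ), M ≤ n → ω x n = 1 / 2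

/-- the expected drift per site `δ` (the sum is finite under (BD)) -/
noncomputable def delta (P : Measure (ℤ → ℕ → ℝ)) : ℝ :=
  ∫ ω, (∑' n : ℕ, (2 * ω 0 n - 1)) ∂P

/-- `X 0, X 1, …` are the successive excited walkers (`X k` is the walker number `k + 1`, that is
`X^{(k+1)}`) on the iterated leftover environments `env 0 = W, env 1, …` on a probability space
`(Θ, μ)`, where `W` has law `P`: all walkers start at `0` and make nearest neighbour steps, and
conditionally on the initial environment, the previous walkers and its own past, a walker steps to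
the right with probability the value of the cookie it finds. -/
structure IsWalkerSystem (P : Measure (ℤ → ℕ → ℝ)) {Θ : Type} [MeasurableSpace Θ]
    (μ : Measure Θ) (W : Θ → ℤ → ℕ → ℝ) (X : ℕ → Θ → ℕ → ℤ)
    (env : ℕ → Θ → ℤ → ℕ → ℝ) : Prop where
  prob : IsProbabilityMeasure μ
  meas_env : Measurable W
  law_env : μ.map W = P
  meas_walk : ∀ j, Measurable (X j)
  env_zero : env 0 = W
  env_transient : ∀ (j : ℕ) (θ : Θ) (x : ℤ) (n : ℕ),
    Tendsto (fun m => |X j θ m|) atTop atTop →
      env (j+1) θ x n = env j θ x (n + Nat.card {m : ℕ // X j θ m = x})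
  env_recurrent : ∀ (j : ℕ) (θ : Θ) (x : ℤ) (n : ℕ),
    ¬ Tendsto (fun m => |X j θ m|) atTop atTop → env (j+1) θ x n = 1/2
  start : ∀ (j : ℕ) (θ : Θ), X j θ 0 = 0
  nearest : ∀ (j : ℕ) (θ : Θ) (n : ℕ),
    X j θ (n+1) = X j θ n + 1 ∨ X j θ (n+1) = X j θ n - 1
  transition : ∀ (j n : ℕ),
    condExp
      (MeasurableSpace.comap
        (fun θ => (W θ, (fun i : Fin j => X (i : ℕ) θ), (fun m : Fin (n+1) => X j θ (m : ℕ))))
        inferInstance)
      μ (Set.indicator {θ | X j θ (n+1) = X j θ n + 1} (fun _ => (1:ℝ)))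
    =ᵐ[μ] fun θ => env j θ (X j θ n) ((Finset.range n).filter (fun m => X j θ m = X j θ n)).card

open Pool.Agent.W846.ERW Pool.H878.ERW

/-- the first walker of a walker system is an excited random walk -/
theorem first_isERW (P : Measure (ℤ → ℕ → ℝ)) (hP : IsCookieLaw P) {Θ : Type}
    [MeasurableSpace Θ] (μ : Measure Θ) (W : Θ → ℤ → ℕ → ℝ) (X : ℕ → Θ → ℕ → ℤ)
    (env : ℕ → Θ → ℤ → ℕ → ℝ) (h : IsWalkerSystem P μ W X env) :
    IsERW μ (fun θ => conv (W θ)) (fun n θ => X 0 θ n) := by
  have hprob := h.prob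
  have hXm : ∀ n, Measurable (fun θ => X 0 θ n) := fun n =>
    (measurable_pi_apply n).comp (h.meas_walk 0)
  have h01 : ∀ᵐ θ ∂μ, ∀ (x : ℤ) (n : ℕ), W θ x n ∈ Set.Icc (0:ℝ) 1 := by
    have h1 := hP.2
    rw [← h.law_env] at h1
    exact ae_of_ae_map h.meas_env.aemeasurable h1
  have hVm : Measurable (fun θ => conv (W θ)) := conv_meas.comp h.meas_env
  refine isERW_of_steps μ _ _ hVm hXm (fun w x i => conv_mem _ _ _)
    (Filter.Eventually.of_forall fun θ => h.start 0 θ)
    (fun n => Filter.Eventually.of_forall fun θ => h.nearest 0 θ n) ?_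
  intro n p A hA
  set R : Set Θ := {θ | X 0 θ (n+1) = X 0 θ n + 1} with hR
  set C : Set Θ := {w | conv (W w) ∈ A ∧ ∀ j, j ≤ n → X 0 w j = p j} with hC
  set φ := (fun θ => (W θ, (fun i : Fin 0 => X (i : ℕ) θ), (fun m : Fin (n+1) => X 0 θ (m : ℕ))))
    with hφ
  have hRm : MeasurableSet R := measurableSet_eq_fun (hXm (n+1)) ((hXm n).add_const 1)
  have hle : MeasurableSpace.comap φ inferInstance ≤ (inferInstance : MeasurableSpace Θ) := by
    apply Measurable.comap_le
    refine h.meas_env.prodMk (Measurable.prodMk ?_ ?_)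
    · exact measurable_pi_lambda _ fun i => h.meas_walk i
    · exact measurable_pi_lambda _ fun m => hXm (m : ℕ)
  have hCφ : MeasurableSet[MeasurableSpace.comap φ inferInstance] C := by
    refine ⟨{z | conv z.1 ∈ A ∧ ∀ m : Fin (n+1), z.2.2 m = p m}, ?_, ?_⟩
    · have h1 : MeasurableSet {z : (ℤ → ℕ → ℝ) × (Fin 0 → ℕ → ℤ) × (Fin (n+1) → ℤ) |
          conv z.1 ∈ A} := (conv_meas.comp measurable_fst) hA
      have h2 : MeasurableSet {z : (ℤ → ℕ → ℝ) × (Fin 0 → ℕ → ℤ) × (Fin (n+1) → ℤ) |
          ∀ m : Fin (n+1), z.2.2 m = p m} := by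
        have : {z : (ℤ → ℕ → ℝ) × (Fin 0 → ℕ → ℤ) × (Fin (n+1) → ℤ) |
          ∀ m : Fin (n+1), z.2.2 m = p m} = ⋂ m : Fin (n+1), {z | z.2.2 m = p m} := by
          ext z; simp
        rw [this]
        refine MeasurableSet.iInter fun m => ?_
        have hm : Measurable (fun z : (ℤ → ℕ → ℝ) × (Fin 0 → ℕ → ℤ) × (Fin (n+1) → ℤ) =>
          z.2.2 m) := (measurable_pi_apply m).comp (measurable_snd.comp measurable_snd)
        exact hm (measurableSet_singleton (p m))
      exact h1.inter h2
    · ext θ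
      simp only [hφ, hC, Set.mem_preimage, Set.mem_ofPred_eq]
      refine and_congr_right fun _ => ⟨fun h3 j hj => h3 ⟨j, by omega⟩, fun h3 m => h3 m (by omega)⟩
  have hint : Integrable (R.indicator (fun _ => (1:ℝ))) μ :=
    (integrable_const (1:ℝ)).indicator hRm
  have h1 := setIntegral_condExp hle hint hCφ
  have h2 : ∫ θ in C, (R.indicator (fun _ => (1:ℝ))) θ ∂μ = μ.real (C ∩ R) := by
    rw [setIntegral_indicator hRm]
    simp
  have h3 : ∫ θ in C, (condExp (MeasurableSpace.comap φ inferInstance) μ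
      (R.indicator (fun _ => (1:ℝ)))) θ ∂μ =
      ∫ θ in C, conv (W θ) (p n) (visits p n) ∂μ := by
    refine setIntegral_congr_ae (hle _ hCφ) ?_
    filter_upwards [h.transition 0 n, h01] with θ h4 h5 h6
    rw [h4, h.env_zero]
    have h7 : X 0 θ n = p n := h6.2 n le_rfl
    have h8 : ((Finset.range n).filter (fun m => X 0 θ m = X 0 θ n)) =
        ((Finset.range n).filter (fun m => p m = p n)) := by
      refine Finset.filter_congr fun m hm => ?_
      rw [h6.2 m (Finset.mem_range.mp hm).le, h7]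
    rw [h8, h7, visits_eq_filter, conv_succ _ _ _ (h5 _ _)]
  rw [h2, h3] at h1
  have h9 : Integrable (fun θ => conv (W θ) (p n) (visits p n)) (μ.restrict C) := by
    refine Integrable.of_bound (C := 1) ?_ ?_
    · have hev : Measurable (fun e : ℤ → ℕ → ℝ => e (p n) (visits p n)) :=
        (measurable_pi_apply (visits p n)).comp (measurable_pi_apply (p n))
      exact (hev.comp hVm).aestronglyMeasurable
    · refine Filter.Eventually.of_forall fun θ => ?_
      have := conv_mem (W θ) (p n) (visits p n)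
      rw [Real.norm_eq_abs, abs_of_nonneg this.1]
      exact this.2
  rw [← ofReal_integral_eq_lintegral_ofReal h9
    (Filter.Eventually.of_forall fun θ => (conv_mem (W θ) (p n) (visits p n)).1), h1,
    ofReal_measureReal]

attribute [local irreducible] DD NN LL cexp fz

/-- There is a stationary ergodic, weakly elliptic law of cookie environments with boundedly many
cookies per site and expected drift per site `δ = 1`, for which walker systems exist, and for which
in every walker system the first walker is transient. -/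
theorem result : ∃ P : Measure (ℤ → ℕ → ℝ),
    IsCookieLaw P ∧ IsSE P ∧ IsWEL P ∧ IsBD P ∧ delta P = 1 ∧
    (∃ (Θ : Type) (_ : MeasurableSpace Θ) (μ : Measure Θ) (W : Θ → ℤ → ℕ → ℝ)
      (X : ℕ → Θ → ℕ → ℤ) (env : ℕ → Θ → ℤ → ℕ → ℝ), IsWalkerSystem P μ W X env) ∧
    ∀ (Θ : Type) [MeasurableSpace Θ] (μ : Measure Θ) (W : Θ → ℤ → ℕ → ℝ)
      (X : ℕ → Θ → ℕ → ℤ) (env : ℕ → Θ → ℤ → ℕ → ℝ), IsWalkerSystem P μ W X env →
      ∀ᵐ θ ∂μ, Tendsto (fun m => |X 0 θ m|) atTop atTop := by
  obtain ⟨Ω, mΩ, μ, hμ, T, r, hT, hm, hs, hlt, hsucc, hc, hu⟩ := partC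
  obtain ⟨hcons, hint, hpos⟩ := partD μ T r hT.toMeasurePreserving hm hs hlt hsucc hc hu
  obtain ⟨c, K, hc0, hgood⟩ := good_of_cons
  have hem : Measurable (fun w => ev (r w)) := ev_measurable r hm
  set W₀ : Ω → ℤ → ℕ → ℝ := fun w x n => ev (r w) x (n + 1) with hW₀
  have hW : Measurable W₀ := by
    refine measurable_pi_iff.2 fun x => measurable_pi_iff.2 fun n => ?_
    exact (measurable_pi_apply (n + 1)).comp ((measurable_pi_apply x).comp hem)
  have hval : ∀ w x k, W₀ w x k = 0 ∨ W₀ w x k = 1/2 ∨ W₀ w x k = 1 := fun w x k => ev_val _ _ _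
  have hmeasD : ∀ x : ℤ, Measurable (fun w => DD (fun j => r w j x)) := by
    intro x
    have h0 : Measurable (fun w => (fun j => r w j x)) := measurable_pi_iff.2 fun j => hm j x
    exact Measurable.comp (g := fun s : ℕ → ℕ => DD s) (f := fun w => (fun j => r w j x))
      DD_measurable h0
  have hneu : ∀ z : ℤ, 0 < μ {w | DD (fun j => r w j z) = 0} := by
    have hstep : ∀ z : ℤ, μ {w | DD (fun j => r w j (z + 1)) = 0} =
        μ {w | DD (fun j => r w j z) = 0} := by
      intro z
      have hms : MeasurableSet {w | DD (fun j => r w j z) = 0} :=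
        (hmeasD z) (measurableSet_singleton 0)
      rw [← hT.toMeasurePreserving.measure_preimage hms.nullMeasurableSet]
      congr 1
      ext w
      simp only [Set.mem_preimage, Set.mem_ofPred_eq, hs]
    intro z
    induction z using Int.induction_on with
    | zero => exact hpos
    | succ i ih => rw [hstep]; exact ih
    | pred i ih =>
      have := hstep (-(i:ℤ) - 1)
      rw [show -(i:ℤ) - 1 + 1 = -(i:ℤ) by ring] at this
      rw [← this]; exact ih
  have hCL : IsCookieLaw (μ.map W₀) := by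
    refine ⟨Measure.isProbabilityMeasure_map hW.aemeasurable, ?_⟩
    rw [ae_map_iff hW.aemeasurable]
    · exact Filter.Eventually.of_forall fun w x n => om_mem _ _ _ _
    · have : {ω : ℤ → ℕ → ℝ | ∀ (x : ℤ) (n : ℕ), ω x n ∈ Set.Icc (0:ℝ) 1} =
          ⋂ (x : ℤ), ⋂ (n : ℕ), {ω | ω x n ∈ Set.Icc (0:ℝ) 1} := by
        ext ω; simp
      rw [this]
      refine MeasurableSet.iInter fun x => MeasurableSet.iInter fun n => ?_
      have hm' : Measurable (fun ω : ℤ → ℕ → ℝ => ω x n) :=
        (measurable_pi_apply n).comp (measurable_pi_apply x)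
      exact hm' measurableSet_Icc
  refine ⟨μ.map W₀, hCL, ?_, ?_, ?_, ?_, ?_, ?_⟩
  · -- stationary and ergodic
    refine ergodic_map μ T hT _ hW fun w => ?_
    funext z
    funext i
    simp only [hW₀, ev_eq, hs]
  · -- weak ellipticity
    intro x
    have hm1 : ∀ n, Measurable (fun ω : ℤ → ℕ → ℝ => ω x n) := fun n =>
      (measurable_pi_apply n).comp (measurable_pi_apply x)
    constructor
    · have hset : MeasurableSet {ω : ℤ → ℕ → ℝ | ∀ n, 0 < ω x n} := by
        have : {ω : ℤ → ℕ → ℝ | ∀ n, 0 < ω x n} = ⋂ n, {ω | 0 < ω x n} := by ext ω; simp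
        rw [this]
        exact MeasurableSet.iInter fun n => (hm1 n) measurableSet_Ioi
      rw [Measure.map_apply hW hset]
      refine lt_of_lt_of_le (hneu x) (measure_mono ?_)
      intro w hw n
      have hw' : DD (fun j => r w j x) = 0 := hw
      show 0 < ev (r w) x (n + 1)
      rw [ev_eq, hw', ck_zero]; norm_num
    · have hset : MeasurableSet {ω : ℤ → ℕ → ℝ | ∀ n, ω x n < 1} := by
        have : {ω : ℤ → ℕ → ℝ | ∀ n, ω x n < 1} = ⋂ n, {ω | ω x n < 1} := by ext ω; simp
        rw [this]
        exact MeasurableSet.iInter fun n => (hm1 n) measurableSet_Iio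
      rw [Measure.map_apply hW hset]
      refine lt_of_lt_of_le (hneu x) (measure_mono ?_)
      intro w hw n
      have hw' : DD (fun j => r w j x) = 0 := hw
      show ev (r w) x (n + 1) < 1
      rw [ev_eq, hw', ck_zero]; norm_num
  · -- boundedly many cookies
    refine ⟨5, ?_⟩
    rw [ae_map_iff hW.aemeasurable]
    · exact Filter.Eventually.of_forall fun w x n hn => ck_bd _ (DD_val _) (n + 1) (by omega)
    · have : {ω : ℤ → ℕ → ℝ | ∀ (x : ℤ) (n : ℕ), 5 ≤ n → ω x n = 1 / 2} =
          ⋂ (x : ℤ), ⋂ (n : ℕ), ⋂ (_ : 5 ≤ n), {ω | ω x n = 1 / 2} := by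
        ext ω; simp
      rw [this]
      refine MeasurableSet.iInter fun x => MeasurableSet.iInter fun n =>
        MeasurableSet.iInter fun _ => ?_
      have hm' : Measurable (fun ω : ℤ → ℕ → ℝ => ω x n) :=
        (measurable_pi_apply n).comp (measurable_pi_apply x)
      exact hm' (measurableSet_singleton _)
  · -- expected drift
    unfold delta
    have hsm : AEStronglyMeasurable (fun ω : ℤ → ℕ → ℝ => ∑' n : ℕ, (2 * ω 0 n - 1))
        (μ.map W₀) := by
      have h1 : (fun ω : ℤ → ℕ → ℝ => ∑' n : ℕ, (2 * ω 0 n - 1)) =ᵐ[μ.map W₀]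
          fun ω => ∑ n ∈ Finset.range 5, (2 * ω 0 n - 1) := by
        have h2 : ∀ᵐ ω ∂(μ.map W₀), ∀ n : ℕ, 5 ≤ n → ω 0 n = 1 / 2 := by
          rw [ae_map_iff hW.aemeasurable]
          · exact Filter.Eventually.of_forall fun w n hn =>
              ck_bd _ (DD_val _) (n + 1) (by omega)
          · have : {ω : ℤ → ℕ → ℝ | ∀ (n : ℕ), 5 ≤ n → ω 0 n = 1 / 2} =
                ⋂ (n : ℕ), ⋂ (_ : 5 ≤ n), {ω | ω 0 n = 1 / 2} := by
              ext ω; simp
            rw [this]
            refine MeasurableSet.iInter fun n => MeasurableSet.iInter fun _ => ?_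
            have hm' : Measurable (fun ω : ℤ → ℕ → ℝ => ω 0 n) :=
              (measurable_pi_apply n).comp (measurable_pi_apply 0)
            exact hm' (measurableSet_singleton _)
        filter_upwards [h2] with ω hω
        refine tsum_eq_sum fun n hn => ?_
        rw [hω n (by simpa using hn)]
        norm_num
      refine AEStronglyMeasurable.congr ?_ h1.symm
      have : Measurable (fun ω : ℤ → ℕ → ℝ => ∑ n ∈ Finset.range 5, (2 * ω 0 n - 1)) := by
        refine Finset.measurable_sum _ fun n _ => ?_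
        have hm' : Measurable (fun ω : ℤ → ℕ → ℝ => ω 0 n) :=
          (measurable_pi_apply n).comp (measurable_pi_apply 0)
        exact (hm'.const_mul 2).sub_const 1
      exact this.aestronglyMeasurable
    rw [integral_map hW.aemeasurable hsm]
    have h1 : (fun w : Ω => ∑' n : ℕ, (2 * W₀ w 0 n - 1)) =
        fun w : Ω => ((DD (fun j => r w j 0) : ℤ) : ℝ) := by
      funext w
      simp only [hW₀, ev_eq]
      exact ck_sum _ (DD_val _)
    rw [h1]
    exact hint
  · -- existence of a walker system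
    refine ⟨Ω × ((ℕ × ℤ × ℕ) → Bool), inferInstance, μ.prod Pool.Agent.H497R3.coins,
      Pool.Agent.H497R3.sW W₀, Pool.Agent.H497R3.sX W₀, Pool.Agent.H497R3.sE W₀, ?_⟩
    refine ⟨inferInstance, Pool.Agent.H497R3.measurable_sW hW, ?_,
      Pool.Agent.H497R3.measurable_sX hW, rfl, ?_, ?_, fun _ _ => rfl, ?_, ?_⟩
    · have : Pool.Agent.H497R3.sW W₀ =
          W₀ ∘ (Prod.fst : Ω × ((ℕ × ℤ × ℕ) → Bool) → Ω) := rfl
      rw [this, ← Measure.map_map hW measurable_fst, Measure.map_fst_prod]
      simp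
    · intro j θ x n h
      have e : Pool.Agent.H497R3.sE W₀ (j+1) θ =
        Pool.Agent.H497R3.leftover (Pool.Agent.H497R3.sE W₀ j θ) (Pool.Agent.H497R3.sX W₀ j θ) := rfl
      rw [e, Pool.Agent.H497R3.leftover, if_pos h]
    · intro j θ x n h
      have e : Pool.Agent.H497R3.sE W₀ (j+1) θ =
        Pool.Agent.H497R3.leftover (Pool.Agent.H497R3.sE W₀ j θ) (Pool.Agent.H497R3.sX W₀ j θ) := rfl
      rw [e, Pool.Agent.H497R3.leftover, if_neg h]
    · intro j θ n
      have h := Pool.Agent.H497R3.pos_succ (Pool.Agent.H497R3.arrows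
        (Pool.Agent.H497R3.sE W₀ j θ) (Pool.Agent.H497R3.sc θ j)) n
      have h' : Pool.Agent.H497R3.sX W₀ j θ (n+1) =
          if Pool.Agent.H497R3.arrows (Pool.Agent.H497R3.sE W₀ j θ) (Pool.Agent.H497R3.sc θ j)
            (Pool.Agent.H497R3.sk W₀ j n θ).1 (Pool.Agent.H497R3.sk W₀ j n θ).2
          then Pool.Agent.H497R3.sX W₀ j θ n + 1 else Pool.Agent.H497R3.sX W₀ j θ n - 1 := h
      rw [h']
      split_ifs
      · left; rfl
      · right; rfl
    · intro j n
      have h := Pool.Agent.H497R3.condExp_step μ hW hval j n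
      refine h.trans ?_
      filter_upwards with θ
      have : Pool.Agent.H497R3.sg W₀ j n θ = Pool.Agent.H497R3.sE W₀ j θ
        (Pool.Agent.H497R3.sk W₀ j n θ).1 (Pool.Agent.H497R3.sk W₀ j n θ).2 := rfl
      rw [this, Pool.Agent.H497R3.sk_snd]
      rfl
  · -- transience of the first walker
    intro Θ _ μ' W X env hsys
    have hprob := hsys.prob
    have hE := first_isERW (μ.map W₀) hCL μ' W X env hsys
    have hXm : ∀ n, Measurable (fun θ => X 0 θ n) := fun n =>
      (measurable_pi_apply n).comp (hsys.meas_walk 0)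
    have hVm : Measurable (fun θ => conv (W θ)) := conv_meas.comp hsys.meas_env
    have hg : ∀ᵐ θ ∂μ', conv (W θ) ∈ GoodEnv c K := by
      have h1 : ∀ᵐ ω ∂(μ.map W₀), conv ω ∈ GoodEnv c K := by
        rw [ae_map_iff hW.aemeasurable]
        · filter_upwards [hcons] with w hw
          have : conv (W₀ w) = ev (r w) := conv_ev _
          rw [this]
          exact hgood _ hw
        · exact conv_meas (goodEnv_meas c K)
      rw [← hsys.law_env] at h1
      exact ae_of_ae_map hsys.meas_env.aemeasurable h1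
    have hM : ∀ᵐ θ ∂μ', ∀ z i, 5 < i → conv (W θ) z i = 1 / 2 := by
      have h1 : ∀ᵐ ω ∂(μ.map W₀), ∀ z i, 5 < i → conv ω z i = 1 / 2 := by
        rw [ae_map_iff hW.aemeasurable]
        · filter_upwards with w z i hi
          have : conv (W₀ w) = ev (r w) := conv_ev _
          rw [this]
          exact ck_bd _ (DD_val _) i hi
        · have : {ω : ℤ → ℕ → ℝ | ∀ (z : ℤ) (i : ℕ), 5 < i → conv ω z i = 1 / 2} =
              ⋂ (z : ℤ), ⋂ (i : ℕ), ⋂ (_ : 5 < i), {ω | conv ω z i = 1 / 2} := by
            ext ω; simp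
          rw [this]
          refine MeasurableSet.iInter fun z => MeasurableSet.iInter fun i =>
            MeasurableSet.iInter fun _ => ?_
          have hm' : Measurable (fun ω : ℤ → ℕ → ℝ => conv ω z i) :=
            (measurable_pi_apply i).comp ((measurable_pi_apply z).comp conv_meas)
          exact hm' (measurableSet_singleton _)
      rw [← hsys.law_env] at h1
      exact ae_of_ae_map hsys.meas_env.aemeasurable h1
    exact transient μ' hVm hXm (fun w x i => conv_mem _ _ _) hE c hc0 K hg 5 hM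

end Pool.Agent.Results.MP_54d550_pr.TransientAtOne
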